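import Mathlib

set_option autoImplicit false
open MeasureTheory Filter Topology Set
open scoped ENNReal

namespace Pool.Agent.Results.MP_395e41_an.StrictInequality

/-! ### Control systems, spanning sets and entropies -/

section Definitions

variable {X V : Type} [NormedAddCommGroup X] [NormedSpace ℝ X]
  [NormedAddCommGroup V] [NormedSpace ℝ V] [MeasurableSpace V]

/-- Admissible controls with control range `U`: measurable functions with `u t ∈ U` for almost
every `t ≥ 0` (the values for `t < 0` play no role). -/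
def Admissible (U : Set V) (u : ℝ → V) : Prop :=
  Measurable u ∧ ∀ᵐ t ∂(volume.restrict (Ici (0 : ℝ))), u t ∈ U

/-- Carathéodory solutions of `x' = f (x, u)`, `x 0 = x₀` on `[0, ∞)`: absolutely continuous on each
`[0, T]` with `x' t = f (x t) (u t)` for almost every `t`. -/
def IsSolution (f : X → V → X) (x₀ : X) (u : ℝ → V) (x : ℝ → X) : Prop :=
  x 0 = x₀ ∧ ∀ T : ℝ, 0 < T → AbsolutelyContinuousOnInterval x 0 T ∧
    ∀ᵐ t : ℝ, t ∈ Ioo 0 T → HasDerivAt x (f (x t) (u t)) t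

end Definitions

/-- Control systems `x' = f (x, u)`, `u t ∈ U`, with compact control range `U`, for which solutions
`φ t x₀ u` exist, are unique and depend continuously on `(t, x₀)`. -/
structure ControlSystem (X V : Type) [NormedAddCommGroup X] [NormedSpace ℝ X]
    [NormedAddCommGroup V] [NormedSpace ℝ V] [MeasurableSpace V] where
  f : X → V → X
  f_continuous : Continuous (Function.uncurry f)
  U : Set V
  U_compact : IsCompact U
  φ : ℝ → X → (ℝ → V) → X
  φ_isSolution : ∀ x₀ u, Admissible U u → IsSolution f x₀ u (fun t => φ t x₀ u)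
  φ_unique : ∀ x₀ u x, Admissible U u → IsSolution f x₀ u x → ∀ t : ℝ, 0 ≤ t → x t = φ t x₀ u
  φ_continuous : ∀ u, Admissible U u →
    ContinuousOn (fun p : ℝ × X => φ p.1 p.2 u) (Ici 0 ×ˢ univ)

/-- `KL`-functions (only the values on `[0, ∞)²` matter). -/
structure IsKL (ζ : ℝ → ℝ → ℝ) : Prop where
  continuous : ContinuousOn (Function.uncurry ζ) (Ici 0 ×ˢ Ici 0)
  nonneg : ∀ r s, 0 ≤ r → 0 ≤ s → 0 ≤ ζ r s
  zero : ∀ s, 0 ≤ s → ζ 0 s = 0
  strictMono : ∀ s, 0 ≤ s → StrictMonoOn (fun r => ζ r s) (Ici 0)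
  strictAnti : ∀ r, 0 < r → StrictAntiOn (fun s => ζ r s) (Ici 0)
  tendsto : ∀ r, 0 ≤ r → Tendsto (fun s => ζ r s) atTop (𝓝 0)

section Entropy

variable {X V : Type} [NormedAddCommGroup X] [NormedSpace ℝ X]
  [NormedAddCommGroup V] [NormedSpace ℝ V] [MeasurableSpace V]

/-- `S` is a `(τ, ε)`-spanning set of controls. -/
def Spanning (sys : ControlSystem X V) (ζ : ℝ → ℝ → ℝ) (Γ Λ : Set X) (τ ε : ℝ)
    (S : Set (ℝ → V)) : Prop :=
  (∀ u ∈ S, Admissible sys.U u) ∧ ∀ x₀ ∈ Γ, ∃ u ∈ S, ∀ t ∈ Icc (0 : ℝ) τ,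
    Metric.infDist (sys.φ t x₀ u) Λ ≤ ζ (Metric.infDist x₀ Λ + ε) t

/-- `S` is a practically `(τ, ε)`-spanning set of controls. -/
def PracticallySpanning (sys : ControlSystem X V) (ζ : ℝ → ℝ → ℝ) (Γ Λ : Set X) (τ ε : ℝ)
    (S : Set (ℝ → V)) : Prop :=
  (∀ u ∈ S, Admissible sys.U u) ∧ ∀ x₀ ∈ Γ, ∃ u ∈ S, ∀ t ∈ Icc (0 : ℝ) τ,
    Metric.infDist (sys.φ t x₀ u) Λ ≤ ζ (Metric.infDist x₀ Λ + ε) t + ε

/-- The minimal cardinality of a spanning set (`⊤` if there is no finite one). -/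
noncomputable def rs (sys : ControlSystem X V) (ζ : ℝ → ℝ → ℝ) (Γ Λ : Set X) (τ ε : ℝ) : ℕ∞ :=
  ⨅ (S : Set (ℝ → V)) (_ : Spanning sys ζ Γ Λ τ ε S), S.encard

/-- The minimal cardinality of a practically spanning set (`⊤` if there is no finite one). -/
noncomputable def rps (sys : ControlSystem X V) (ζ : ℝ → ℝ → ℝ) (Γ Λ : Set X) (τ ε : ℝ) : ℕ∞ :=
  ⨅ (S : Set (ℝ → V)) (_ : PracticallySpanning sys ζ Γ Λ τ ε S), S.encard

/-- `h_s(ε) = limsup (1/τ) log r_s(τ, ε)` as `τ → ∞`. -/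
noncomputable def hs (sys : ControlSystem X V) (ζ : ℝ → ℝ → ℝ) (Γ Λ : Set X) (ε : ℝ) : EReal :=
  limsup (fun τ : ℝ => ((τ⁻¹ : ℝ) : EReal) * ENNReal.log ((rs sys ζ Γ Λ τ ε : ℕ∞) : ℝ≥0∞)) atTop

/-- `h_ps(ε) = limsup (1/τ) log r_ps(τ, ε)` as `τ → ∞`. -/
noncomputable def hps (sys : ControlSystem X V) (ζ : ℝ → ℝ → ℝ) (Γ Λ : Set X) (ε : ℝ) : EReal :=
  limsup (fun τ : ℝ => ((τ⁻¹ : ℝ) : EReal) * ENNReal.log ((rps sys ζ Γ Λ τ ε : ℕ∞) : ℝ≥0∞)) atTop

/-- The system is stabilizable for `ζ, Γ, Λ`. -/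
def Stabilizable (sys : ControlSystem X V) (ζ : ℝ → ℝ → ℝ) (Γ Λ : Set X) : Prop :=
  ∀ x₀ ∈ Γ, ∃ u, Admissible sys.U u ∧ ∀ t : ℝ, 0 ≤ t →
    Metric.infDist (sys.φ t x₀ u) Λ ≤ ζ (Metric.infDist x₀ Λ) t

end Entropy

/-! ### The scalar system `x' = x + u`, `|u| ≤ 2` -/

/-- the solution of `x' = x + u` -/
noncomputable def phi (t x₀ : ℝ) (u : ℝ → ℝ) : ℝ :=
  Real.exp t * (x₀ + ∫ s in (0 : ℝ)..t, Real.exp (-s) * u s)

lemma admissible_integrable {u : ℝ → ℝ} (hu : Admissible (Icc (-2 : ℝ) 2) u) (T : ℝ) (hT : 0 ≤ T) :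
    IntervalIntegrable (fun s => Real.exp (-s) * u s) volume 0 T := by
  rw [intervalIntegrable_iff_integrableOn_Ioc_of_le hT]
  have h1 : IntegrableOn u (Ioc 0 T) volume := by
    refine Integrable.of_bound (hu.1.aestronglyMeasurable) 2 ?_
    have h2 : ∀ᵐ t ∂(volume.restrict (Ioc 0 T)), u t ∈ Icc (-2 : ℝ) 2 :=
      ae_restrict_of_ae_restrict_of_subset (fun t ht => mem_Ici.2 ht.1.le) hu.2
    filter_upwards [h2] with t ht
    rw [Real.norm_eq_abs]
    exact abs_le.2 ht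
  refine Integrable.bdd_mul (c := 1) h1 (by fun_prop) ?_
  filter_upwards [ae_restrict_mem measurableSet_Ioc] with t ht
  rw [Real.norm_eq_abs, abs_of_pos (Real.exp_pos _)]
  exact Real.exp_le_one_iff.2 (by linarith [ht.1])

lemma ac_exp (T : ℝ) : AbsolutelyContinuousOnInterval Real.exp 0 T :=
  ContDiffOn.absolutelyContinuousOnInterval (Real.contDiff_exp.contDiffOn)

lemma ac_const (c T : ℝ) : AbsolutelyContinuousOnInterval (fun _ : ℝ => c) 0 T :=
  ContDiffOn.absolutelyContinuousOnInterval (contDiff_const.contDiffOn)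

lemma phi_isSolution (x₀ : ℝ) (u : ℝ → ℝ) (hu : Admissible (Icc (-2 : ℝ) 2) u) :
    IsSolution (fun x v : ℝ => x + v) x₀ u (fun t => phi t x₀ u) := by
  refine ⟨by simp [phi], fun T hT => ⟨?_, ?_⟩⟩
  · have h1 := (admissible_integrable hu T hT.le).absolutelyContinuousOnInterval_intervalIntegral
      (c := 0) left_mem_uIcc
    exact (ac_exp T).mul ((ac_const x₀ T).add h1)
  · filter_upwards [(admissible_integrable hu T hT.le).ae_hasDerivAt_integral] with t ht hmem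
    have h1 := ht (by rw [uIcc_of_le hT.le]; exact ⟨hmem.1.le, hmem.2.le⟩) 0 left_mem_uIcc
    have h2 := (Real.hasDerivAt_exp t).mul (h1.const_add x₀)
    refine h2.congr_deriv ?_
    simp only [phi]
    rw [← mul_assoc, ← Real.exp_add]
    simp

lemma phi_unique (x₀ : ℝ) (u x : ℝ → ℝ) (hu : Admissible (Icc (-2 : ℝ) 2) u)
    (hx : IsSolution (fun x v : ℝ => x + v) x₀ u x) (t : ℝ) (ht : 0 ≤ t) : x t = phi t x₀ u := by
  have hy := phi_isSolution x₀ u hu
  rcases ht.eq_or_lt with rfl | htpos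
  · rw [hx.1]; exact hy.1.symm
  obtain ⟨hx1, hx2⟩ := hx.2 t htpos
  obtain ⟨hy1, hy2⟩ := hy.2 t htpos
  have hexp : AbsolutelyContinuousOnInterval (fun s : ℝ => Real.exp (-s)) 0 t :=
    ContDiffOn.absolutelyContinuousOnInterval (by fun_prop)
  have hw : AbsolutelyContinuousOnInterval (fun s => Real.exp (-s) * (x s - phi s x₀ u)) 0 t :=
    hexp.mul (hx1.sub hy1)
  have hne : ∀ᵐ s : ℝ, s ≠ 0 ∧ s ≠ t := by
    have h1 : ∀ᵐ s : ℝ, s ≠ 0 := by simp [ae_iff]
    have h2 : ∀ᵐ s : ℝ, s ≠ t := by simp [ae_iff]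
    filter_upwards [h1, h2] with s h3 h4 using ⟨h3, h4⟩
  have hw0 : ∀ᵐ s : ℝ, s ∈ uIcc 0 t → HasDerivAt (fun s => Real.exp (-s) * (x s - phi s x₀ u)) 0 s := by
    filter_upwards [hx2, hy2, hne] with s h1 h2 h3 h4
    rw [uIcc_of_le ht] at h4
    have h5 : s ∈ Ioo 0 t := ⟨lt_of_le_of_ne h4.1 (Ne.symm h3.1), lt_of_le_of_ne h4.2 h3.2⟩
    have h6 : HasDerivAt (fun s : ℝ => Real.exp (-s)) (Real.exp (-s) * (-1)) s :=
      (hasDerivAt_neg s).exp
    have h7 := h6.mul ((h1 h5).sub (h2 h5))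
    refine h7.congr_deriv ?_
    simp only [Pi.sub_apply]
    ring
  obtain ⟨c, hc⟩ := hw.const_of_ae_hasDerivAt_zero hw0
  have e0 := hc 0 left_mem_uIcc
  have e1 := hc t right_mem_uIcc
  have hy0 : phi 0 x₀ u = x₀ := hy.1
  rw [hx.1, hy0, sub_self, mul_zero] at e0
  rw [← e0] at e1
  rcases mul_eq_zero.1 e1 with h | h
  · exact absurd h (Real.exp_pos _).ne'
  · linarith

lemma phi_continuous (u : ℝ → ℝ) (hu : Admissible (Icc (-2 : ℝ) 2) u) :
    ContinuousOn (fun p : ℝ × ℝ => phi p.1 p.2 u) (Ici 0 ×ˢ univ) := by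
  have h1 : ContinuousOn (fun t : ℝ => ∫ s in (0 : ℝ)..t, Real.exp (-s) * u s) (Ici 0) := by
    intro t ht
    have ht' : (0 : ℝ) ≤ t := ht
    have h2 := ((admissible_integrable hu (t + 1) (by linarith)).absolutelyContinuousOnInterval_intervalIntegral
      (c := 0) left_mem_uIcc).continuousOn
    rw [uIcc_of_le (by linarith)] at h2
    have h3 := h2 t ⟨ht', by linarith⟩
    refine h3.mono_of_mem_nhdsWithin ?_
    have : Icc 0 (t + 1) = Ici 0 ∩ Iic (t + 1) := rfl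
    rw [this]
    exact inter_mem self_mem_nhdsWithin (mem_nhdsWithin_of_mem_nhds (Iic_mem_nhds (by linarith)))
  unfold phi
  refine ContinuousOn.mul (by fun_prop) (ContinuousOn.add (by fun_prop) ?_)
  exact h1.comp continuousOn_fst fun p hp => hp.1

/-- the control system `x' = x + u`, `u t ∈ [-2, 2]` -/
noncomputable def sys : ControlSystem ℝ ℝ where
  f := fun x v => x + v
  f_continuous := by fun_prop
  U := Icc (-2) 2
  U_compact := isCompact_Icc
  φ := phi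
  φ_isSolution := phi_isSolution
  φ_unique := phi_unique
  φ_continuous := phi_continuous

/-! ### Growth rates -/

lemma limsup_rate {r : ℝ → ℝ≥0∞} {a A c : ℝ} (ha : 0 < a) (hA : 0 < A)
    (h1 : ∀ τ : ℝ, 0 ≤ τ → ENNReal.ofReal (a * Real.exp (c * τ)) ≤ r τ)
    (h2 : ∀ τ : ℝ, 0 ≤ τ → r τ ≤ ENNReal.ofReal (A * Real.exp (c * τ))) :
    limsup (fun τ : ℝ => ((τ⁻¹ : ℝ) : EReal) * ENNReal.log (r τ)) atTop = (c : EReal) := by
  have key : ∀ b : ℝ, 0 < b → Tendsto (fun τ : ℝ => ((τ⁻¹ : ℝ) : EReal) *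
      ENNReal.log (ENNReal.ofReal (b * Real.exp (c * τ)))) atTop (𝓝 (c : EReal)) := by
    intro b hb
    have e : ∀ τ : ℝ, ((τ⁻¹ : ℝ) : EReal) * ENNReal.log (ENNReal.ofReal (b * Real.exp (c * τ))) =
        ((τ⁻¹ * (Real.log b + c * τ) : ℝ) : EReal) := by
      intro τ
      have hpos : 0 < b * Real.exp (c * τ) := by positivity
      rw [ENNReal.log_ofReal, if_neg (not_le.2 hpos), Real.log_mul hb.ne' (Real.exp_pos _).ne',
        Real.log_exp, EReal.coe_mul]
    simp only [e]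
    refine (continuous_coe_real_ereal.tendsto c).comp ?_
    have h3 : Tendsto (fun τ : ℝ => τ⁻¹ * Real.log b + c) atTop (𝓝 (0 * Real.log b + c)) :=
      (tendsto_inv_atTop_zero.mul_const _).add_const _
    rw [zero_mul, zero_add] at h3
    refine h3.congr' ?_
    filter_upwards [eventually_gt_atTop 0] with τ hτ
    field_simp
  refine (tendsto_of_tendsto_of_tendsto_of_le_of_le' (key a ha) (key A hA) ?_ ?_).limsup_eq
  · filter_upwards [eventually_gt_atTop 0] with τ hτ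
    exact mul_le_mul_of_nonneg_left (ENNReal.log_monotone (h1 τ hτ.le))
      (EReal.coe_nonneg.2 (inv_pos.2 hτ).le)
  · filter_upwards [eventually_gt_atTop 0] with τ hτ
    exact mul_le_mul_of_nonneg_left (ENNReal.log_monotone (h2 τ hτ.le))
      (EReal.coe_nonneg.2 (inv_pos.2 hτ).le)

/-! ### Lower bounds by volume -/

lemma card_lower {S : Set (ℝ → ℝ)} {D τ : ℝ} (hD : 0 < D)
    (h : ∀ x ∈ Icc (-1 : ℝ) 1, ∃ u ∈ S, |phi τ x u| ≤ D / 2) :
    ENNReal.ofReal (2 * Real.exp τ / D) ≤ ((S.encard : ℕ∞) : ℝ≥0∞) := by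
  rcases S.finite_or_infinite with hfin | hinf
  · lift S to Finset (ℝ → ℝ) using hfin
    rw [Set.encard_coe_eq_coe_finsetCard]
    set c : (ℝ → ℝ) → ℝ := fun u => ∫ s in (0 : ℝ)..τ, Real.exp (-s) * u s with hc
    set d : ℝ := D / 2 * Real.exp (-τ) with hd
    have hcover : Icc (-1 : ℝ) 1 ⊆ ⋃ u ∈ S, Icc (-c u - d) (-c u + d) := by
      intro x hx
      obtain ⟨u, hu, hu2⟩ := h x hx
      refine mem_iUnion₂.2 ⟨u, hu, ?_⟩
      have e : phi τ x u = Real.exp τ * (x + c u) := rfl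
      rw [e, abs_mul, abs_of_pos (Real.exp_pos τ)] at hu2
      have h3 : |x + c u| ≤ d := by
        rw [hd, Real.exp_neg, ← div_eq_mul_inv, le_div_iff₀ (Real.exp_pos τ)]
        linarith
      have := abs_le.1 h3
      exact ⟨by linarith, by linarith⟩
    have hvol : ENNReal.ofReal 2 ≤ (S.card : ℝ≥0∞) * ENNReal.ofReal (2 * d) := by
      calc ENNReal.ofReal 2 = volume (Icc (-1 : ℝ) 1) := by rw [Real.volume_Icc]; norm_num
        _ ≤ volume (⋃ u ∈ S, Icc (-c u - d) (-c u + d)) := measure_mono hcover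
        _ ≤ ∑ u ∈ S, volume (Icc (-c u - d) (-c u + d)) := measure_biUnion_finset_le _ _
        _ = ∑ u ∈ S, ENNReal.ofReal (2 * d) := by
            refine Finset.sum_congr rfl fun u _ => ?_
            rw [Real.volume_Icc]
            congr 1
            ring
        _ = (S.card : ℝ≥0∞) * ENNReal.ofReal (2 * d) := by
            rw [Finset.sum_const, nsmul_eq_mul]
    have hdpos : 0 < d := by positivity
    have h4 : (2 : ℝ) ≤ S.card * (2 * d) := by
      rw [← ENNReal.ofReal_natCast, ← ENNReal.ofReal_mul (Nat.cast_nonneg _)] at hvol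
      exact (ENNReal.ofReal_le_ofReal_iff (by positivity)).1 hvol
    rw [ENat.toENNReal_coe, ← ENNReal.ofReal_natCast]
    refine ENNReal.ofReal_le_ofReal ?_
    rw [div_le_iff₀ hD]
    have h5 : d * Real.exp τ = D / 2 := by
      rw [hd, mul_assoc, ← Real.exp_add]
      simp
    have h6 := mul_le_mul_of_nonneg_right h4 (Real.exp_pos τ).le
    calc 2 * Real.exp τ ≤ S.card * (2 * d) * Real.exp τ := h6
      _ = S.card * (2 * (d * Real.exp τ)) := by ring
      _ = S.card * D := by rw [h5]; ring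
  · rw [hinf.encard_eq, ENat.toENNReal_top]
    exact le_top

/-! ### Upper bounds by a grid of controls -/

lemma grid (δ : ℝ) (hδ : 0 < δ) : ∃ F : Finset ℝ, (∀ y ∈ F, y ∈ Icc (-1 : ℝ) 1) ∧
    (F.card : ℝ) ≤ 2 / δ + 2 ∧ ∀ x ∈ Icc (-1 : ℝ) 1, ∃ y ∈ F, |x - y| ≤ δ := by
  set N : ℕ := ⌈2 / δ⌉₊ with hN
  have hNpos : 0 < N := Nat.ceil_pos.2 (by positivity)
  have hNpos' : (0 : ℝ) < N := Nat.cast_pos.2 hNpos
  have hNge : 2 / δ ≤ N := Nat.le_ceil _
  have hNlt : (N : ℝ) < 2 / δ + 1 := Nat.ceil_lt_add_one (by positivity)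
  refine ⟨(Finset.range (N + 1)).image fun k : ℕ => (-1 + 2 * k / N : ℝ), ?_, ?_, ?_⟩
  · intro y hy
    obtain ⟨k, hk, rfl⟩ := Finset.mem_image.1 hy
    have hk' : (k : ℝ) ≤ N := by
      have := Finset.mem_range.1 hk
      exact_mod_cast Nat.lt_succ_iff.1 this
    have h1 : 2 * (k : ℝ) / N ≤ 2 := by rw [div_le_iff₀ hNpos']; linarith
    have h2 : 0 ≤ 2 * (k : ℝ) / N := by positivity
    exact ⟨by linarith, by linarith⟩
  · have h1 : (((Finset.range (N + 1)).image fun k : ℕ => (-1 + 2 * k / N : ℝ)).card : ℝ) ≤ N + 1 := by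
      have := Finset.card_image_le (s := Finset.range (N + 1)) (f := fun k : ℕ => (-1 + 2 * k / N : ℝ))
      rw [Finset.card_range] at this
      exact_mod_cast this
    linarith
  · intro x hx
    have hx0 : 0 ≤ (x + 1) * N / 2 := by
      have := hx.1
      have : 0 ≤ x + 1 := by linarith
      positivity
    refine ⟨(-1 + 2 * (⌊(x + 1) * N / 2⌋₊ : ℕ) / N : ℝ), ?_, ?_⟩
    · refine Finset.mem_image.2 ⟨⌊(x + 1) * N / 2⌋₊, ?_, rfl⟩
      rw [Finset.mem_range, Nat.lt_succ_iff]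
      refine Nat.floor_le_of_le ?_
      have := hx.2
      nlinarith
    · have h1 := Nat.floor_le hx0
      have h2 := Nat.lt_floor_add_one ((x + 1) * N / 2)
      set k : ℝ := (⌊(x + 1) * N / 2⌋₊ : ℝ) with hk
      have h3 : 2 / (N : ℝ) ≤ δ := by
        rw [div_le_iff₀ hNpos']
        rw [div_le_iff₀ hδ] at hNge
        linarith
      have h4 : 2 * k / N ≤ x + 1 := by rw [div_le_iff₀ hNpos']; linarith
      have h5 : x + 1 ≤ 2 * k / N + 2 / N := by
        rw [← add_div, le_div_iff₀ hNpos']; linarith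
      rw [abs_of_nonneg (by linarith)]
      linarith

/-- the control steering `y` to `0` along `exp (-t) y` -/
noncomputable def ctrl (y : ℝ) : ℝ → ℝ := fun t => -2 * Real.exp (-t) * y

lemma ctrl_admissible {y : ℝ} (hy : y ∈ Icc (-1 : ℝ) 1) : Admissible (Icc (-2 : ℝ) 2) (ctrl y) := by
  refine ⟨by unfold ctrl; fun_prop, ?_⟩
  filter_upwards [ae_restrict_mem measurableSet_Ici] with t ht
  have h1 : Real.exp (-t) ≤ 1 := Real.exp_le_one_iff.2 (by linarith [mem_Ici.1 ht])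
  have h2 := Real.exp_pos (-t)
  have h3 : |ctrl y t| ≤ 2 := by
    unfold ctrl
    rw [abs_mul, abs_mul, abs_of_pos h2]
    have := abs_le.2 hy
    norm_num
    nlinarith [abs_nonneg y]
  exact abs_le.1 h3

lemma phi_ctrl (t x y : ℝ) : phi t x (ctrl y) = Real.exp (-t) * y + Real.exp t * (x - y) := by
  unfold phi ctrl
  have h : ∀ s ∈ uIcc 0 t, HasDerivAt (fun s => y * Real.exp (-2 * s))
      (Real.exp (-s) * (-2 * Real.exp (-s) * y)) s := by
    intro s _
    have h1 : HasDerivAt (fun s : ℝ => -2 * s) (-2) s := by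
      simpa using (hasDerivAt_id s).const_mul (-2 : ℝ)
    refine (h1.exp.const_mul y).congr_deriv ?_
    have : Real.exp (-2 * s) = Real.exp (-s) * Real.exp (-s) := by rw [← Real.exp_add]; ring_nf
    rw [this]; ring
  rw [intervalIntegral.integral_eq_sub_of_hasDerivAt h (Continuous.intervalIntegrable (by fun_prop) _ _)]
  have h2 : Real.exp t * Real.exp (-2 * t) = Real.exp (-t) := by rw [← Real.exp_add]; ring_nf
  have h3 : Real.exp (-2 * 0) = 1 := by norm_num
  rw [h3]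
  linear_combination y * h2

lemma card_image_ctrl (F : Finset ℝ) : ((ctrl '' (F : Set ℝ)).encard : ℝ≥0∞) ≤ ENNReal.ofReal F.card := by
  rw [ENNReal.ofReal_natCast, ← ENat.toENNReal_coe, ENat.toENNReal_le, ← Set.encard_coe_eq_coe_finsetCard]
  exact Set.encard_image_le _ _

/-! ### The two entropies -/

/-- the `KL`-function `ζ(r, t) = r exp (-t)` -/
noncomputable def zeta (r t : ℝ) : ℝ := r * Real.exp (-t)

lemma infDist_zero (x : ℝ) : Metric.infDist x {0} = |x| := by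
  rw [Metric.infDist_singleton, Real.dist_eq, sub_zero]

lemma zeta_isKL : IsKL zeta where
  continuous := by unfold zeta; exact Continuous.continuousOn (by fun_prop)
  nonneg := fun r s hr _ => mul_nonneg hr (Real.exp_pos _).le
  zero := fun s _ => zero_mul _
  strictMono := fun s _ a _ b _ hab => mul_lt_mul_of_pos_right hab (Real.exp_pos _)
  strictAnti := fun r hr a _ b _ hab =>
    mul_lt_mul_of_pos_left (Real.exp_lt_exp.2 (neg_lt_neg hab)) hr
  tendsto := fun r _ => by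
    have h : Tendsto (fun s : ℝ => r * Real.exp (-s)) atTop (𝓝 (r * 0)) :=
      (Real.tendsto_exp_neg_atTop_nhds_zero).const_mul r
    simpa [zeta] using h

lemma sys_stabilizable : Stabilizable sys zeta (Icc (-1) 1) {0} := by
  intro x₀ hx₀
  refine ⟨ctrl x₀, ctrl_admissible hx₀, fun t _ => ?_⟩
  show Metric.infDist (phi t x₀ (ctrl x₀)) {0} ≤ _
  rw [infDist_zero, infDist_zero, phi_ctrl, sub_self, mul_zero, add_zero, abs_mul,
    abs_of_pos (Real.exp_pos _), zeta, mul_comm]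

lemma le_cast_iInf {P : Set (ℝ → ℝ) → Prop} {c : ℝ≥0∞}
    (h : ∀ S, P S → c ≤ ((S.encard : ℕ∞) : ℝ≥0∞)) :
    c ≤ ((⨅ (S : Set (ℝ → ℝ)) (_ : P S), S.encard : ℕ∞) : ℝ≥0∞) := by
  rw [iInf_subtype']
  rcases isEmpty_or_nonempty {S // P S} with he | hne
  · rw [iInf_of_empty, ENat.toENNReal_top]
    exact le_top
  · obtain ⟨⟨S, hS⟩, e⟩ := ciInf_mem (fun S : {S // P S} => S.1.encard)
    rw [← e]
    exact h S hS

lemma cast_iInf_le {P : Set (ℝ → ℝ) → Prop} {S : Set (ℝ → ℝ)} (hS : P S) :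
    ((⨅ (S : Set (ℝ → ℝ)) (_ : P S), S.encard : ℕ∞) : ℝ≥0∞) ≤ ((S.encard : ℕ∞) : ℝ≥0∞) :=
  ENat.toENNReal_le.2 (iInf₂_le S hS)

lemma abs_le_one {x : ℝ} (hx : x ∈ Icc (-1 : ℝ) 1) : |x| ≤ 1 := abs_le.2 hx

lemma rs_lower {τ ε : ℝ} (hτ : 0 ≤ τ) (hε : 0 < ε) :
    ENNReal.ofReal ((1 / (1 + ε)) * Real.exp (2 * τ)) ≤
      ((rs sys zeta (Icc (-1) 1) {0} τ ε : ℕ∞) : ℝ≥0∞) := by
  refine le_cast_iInf fun S hS => ?_
  have h := card_lower (S := S) (D := 2 * ((1 + ε) * Real.exp (-τ))) (τ := τ) (by positivity) (by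
    intro x hx
    obtain ⟨u, hu, hu2⟩ := hS.2 x hx
    refine ⟨u, hu, ?_⟩
    have h1 := hu2 τ (right_mem_Icc.2 hτ)
    rw [infDist_zero, infDist_zero] at h1
    have h2 : |phi τ x u| ≤ (|x| + ε) * Real.exp (-τ) := h1
    have h3 : (|x| + ε) * Real.exp (-τ) ≤ (1 + ε) * Real.exp (-τ) :=
      mul_le_mul_of_nonneg_right (by linarith [abs_le_one hx]) (Real.exp_pos _).le
    linarith)
  refine le_trans (le_of_eq ?_) h
  congr 1
  have e : Real.exp (2 * τ) * Real.exp (-τ) = Real.exp τ := by rw [← Real.exp_add]; ring_nf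
  have : Real.exp (-τ) ≠ 0 := (Real.exp_pos _).ne'
  have h1ε : (1 + ε) ≠ 0 := by positivity
  field_simp
  linarith

lemma rps_lower {τ ε : ℝ} (hτ : 0 ≤ τ) (hε : 0 < ε) :
    ENNReal.ofReal ((1 / (1 + 2 * ε)) * Real.exp (1 * τ)) ≤
      ((rps sys zeta (Icc (-1) 1) {0} τ ε : ℕ∞) : ℝ≥0∞) := by
  refine le_cast_iInf fun S hS => ?_
  have h := card_lower (S := S) (D := 2 * (1 + 2 * ε)) (τ := τ) (by positivity) (by
    intro x hx
    obtain ⟨u, hu, hu2⟩ := hS.2 x hx
    refine ⟨u, hu, ?_⟩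
    have h1 := hu2 τ (right_mem_Icc.2 hτ)
    rw [infDist_zero, infDist_zero] at h1
    have h2 : |phi τ x u| ≤ (|x| + ε) * Real.exp (-τ) + ε := h1
    have h3 : (|x| + ε) * Real.exp (-τ) ≤ (1 + ε) * 1 :=
      mul_le_mul (by linarith [abs_le_one hx]) (Real.exp_le_one_iff.2 (by linarith))
        (Real.exp_pos _).le (by positivity)
    linarith)
  refine le_trans (le_of_eq ?_) h
  congr 1
  rw [one_mul]
  have h1ε : (1 + 2 * ε) ≠ 0 := by positivity
  field_simp

lemma rs_upper {τ ε : ℝ} (hτ : 0 ≤ τ) (hε : 0 < ε) :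
    ((rs sys zeta (Icc (-1) 1) {0} τ ε : ℕ∞) : ℝ≥0∞) ≤
      ENNReal.ofReal ((4 / ε + 2) * Real.exp (2 * τ)) := by
  have hE : 1 ≤ Real.exp (2 * τ) := Real.one_le_exp (by linarith)
  obtain ⟨F, hF1, hF2, hF3⟩ := grid (ε / (1 + Real.exp (2 * τ))) (by positivity)
  have hsp : Spanning sys zeta (Icc (-1) 1) {0} τ ε (ctrl '' (F : Set ℝ)) := by
    refine ⟨?_, ?_⟩
    · rintro _ ⟨y, hy, rfl⟩
      exact ctrl_admissible (hF1 y hy)
    · intro x hx
      obtain ⟨y, hy, hxy⟩ := hF3 x hx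
      refine ⟨ctrl y, ⟨y, hy, rfl⟩, fun t ht => ?_⟩
      show Metric.infDist (phi t x (ctrl y)) {0} ≤ _
      rw [infDist_zero, infDist_zero, phi_ctrl, zeta]
      have h1 : |y| ≤ |x| + |x - y| := by
        have := abs_sub_abs_le_abs_sub y x
        rw [abs_sub_comm y x] at this
        linarith
      have h2 : Real.exp t = Real.exp (-t) * Real.exp (2 * t) := by rw [← Real.exp_add]; ring_nf
      have h3 : Real.exp (2 * t) ≤ Real.exp (2 * τ) := Real.exp_le_exp.2 (by linarith [ht.2])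
      have h4 : |x - y| * (1 + Real.exp (2 * τ)) ≤ ε := by
        rwa [le_div_iff₀ (by positivity)] at hxy
      have h5 : |x - y| * (1 + Real.exp (2 * t)) ≤ ε :=
        (mul_le_mul_of_nonneg_left (by linarith) (abs_nonneg _)).trans h4
      calc |Real.exp (-t) * y + Real.exp t * (x - y)|
          ≤ Real.exp (-t) * |y| + Real.exp t * |x - y| := by
            refine (abs_add_le _ _).trans ?_
            rw [abs_mul, abs_mul, abs_of_pos (Real.exp_pos _), abs_of_pos (Real.exp_pos _)]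
        _ = Real.exp (-t) * (|y| + Real.exp (2 * t) * |x - y|) := by rw [h2]; ring
        _ ≤ Real.exp (-t) * (|x| + ε) := by
            refine mul_le_mul_of_nonneg_left ?_ (Real.exp_pos _).le
            linarith
        _ = (|x| + ε) * Real.exp (-t) := mul_comm _ _
  refine (cast_iInf_le hsp).trans ((card_image_ctrl F).trans (ENNReal.ofReal_le_ofReal ?_))
  refine hF2.trans ?_
  rw [div_div_eq_mul_div, add_mul]
  have h6 : 2 * (1 + Real.exp (2 * τ)) / ε ≤ 4 / ε * Real.exp (2 * τ) := by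
    rw [div_mul_eq_mul_div]
    exact div_le_div_of_nonneg_right (by linarith) hε.le
  linarith

lemma rps_upper {τ ε : ℝ} (hτ : 0 ≤ τ) (hε : 0 < ε) :
    ((rps sys zeta (Icc (-1) 1) {0} τ ε : ℕ∞) : ℝ≥0∞) ≤
      ENNReal.ofReal ((2 / ε + 2) * Real.exp (1 * τ)) := by
  have hE : 1 ≤ Real.exp τ := Real.one_le_exp hτ
  obtain ⟨F, hF1, hF2, hF3⟩ := grid (ε * Real.exp (-τ)) (by positivity)
  have hsp : PracticallySpanning sys zeta (Icc (-1) 1) {0} τ ε (ctrl '' (F : Set ℝ)) := by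
    refine ⟨?_, ?_⟩
    · rintro _ ⟨y, hy, rfl⟩
      exact ctrl_admissible (hF1 y hy)
    · intro x hx
      obtain ⟨y, hy, hxy⟩ := hF3 x hx
      refine ⟨ctrl y, ⟨y, hy, rfl⟩, fun t ht => ?_⟩
      show Metric.infDist (phi t x (ctrl y)) {0} ≤ _
      rw [infDist_zero, infDist_zero, phi_ctrl, zeta]
      have h1 : |y| ≤ |x| + |x - y| := by
        have := abs_sub_abs_le_abs_sub y x
        rw [abs_sub_comm y x] at this
        linarith
      have h2 : Real.exp t * |x - y| ≤ ε := by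
        calc Real.exp t * |x - y| ≤ Real.exp τ * (ε * Real.exp (-τ)) :=
              mul_le_mul (Real.exp_le_exp.2 ht.2) hxy (abs_nonneg _) (Real.exp_pos _).le
          _ = ε * (Real.exp τ * Real.exp (-τ)) := by ring
          _ = ε := by rw [← Real.exp_add]; simp
      have h3 : |x - y| ≤ ε := by
        refine hxy.trans ?_
        have : Real.exp (-τ) ≤ 1 := Real.exp_le_one_iff.2 (by linarith)
        nlinarith
      calc |Real.exp (-t) * y + Real.exp t * (x - y)|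
          ≤ Real.exp (-t) * |y| + Real.exp t * |x - y| := by
            refine (abs_add_le _ _).trans ?_
            rw [abs_mul, abs_mul, abs_of_pos (Real.exp_pos _), abs_of_pos (Real.exp_pos _)]
        _ ≤ Real.exp (-t) * (|x| + ε) + ε := by
            refine add_le_add (mul_le_mul_of_nonneg_left ?_ (Real.exp_pos _).le) h2
            linarith
        _ = (|x| + ε) * Real.exp (-t) + ε := by ring
  refine (cast_iInf_le hsp).trans ((card_image_ctrl F).trans (ENNReal.ofReal_le_ofReal ?_))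
  refine hF2.trans ?_
  rw [one_mul, add_mul]
  have h6 : 2 / (ε * Real.exp (-τ)) = 2 / ε * Real.exp τ := by
    rw [Real.exp_neg]
    field_simp
  rw [h6]
  linarith

lemma hs_eq {ε : ℝ} (hε : 0 < ε) : hs sys zeta (Icc (-1) 1) {0} ε = ((2 : ℝ) : EReal) :=
  limsup_rate (a := 1 / (1 + ε)) (A := 4 / ε + 2) (by positivity) (by positivity)
    (fun _ hτ => rs_lower hτ hε) (fun _ hτ => rs_upper hτ hε)

lemma hps_eq {ε : ℝ} (hε : 0 < ε) : hps sys zeta (Icc (-1) 1) {0} ε = ((1 : ℝ) : EReal) :=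
  limsup_rate (a := 1 / (1 + 2 * ε)) (A := 2 / ε + 2) (by positivity) (by positivity)
    (fun _ hτ => rps_lower hτ hε) (fun _ hτ => rps_upper hτ hε)

/-- **Theorem.** There are a control system, compact sets `Γ`, `Λ` and a `KL`-function `ζ` such that
the system is stabilizable and the practical stabilization entropy `h_ps = lim_{ε → 0} h_ps(ε)` is
strictly smaller than the stabilization entropy `h_s = lim_{ε → 0} h_s(ε)`. In the example
`h_ps(ε) = 1` and `h_s(ε) = 2` for every `ε > 0`. -/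
theorem result : ∃ (sys : ControlSystem ℝ ℝ) (Γ Λ : Set ℝ) (ζ : ℝ → ℝ → ℝ),
    IsCompact Γ ∧ IsCompact Λ ∧ IsKL ζ ∧ Stabilizable sys ζ Γ Λ ∧
    (∀ ε : ℝ, 0 < ε → hps sys ζ Γ Λ ε = 1 ∧ hs sys ζ Γ Λ ε = 2) ∧
    ∃ a b : EReal, Tendsto (fun ε => hps sys ζ Γ Λ ε) (𝓝[>] 0) (𝓝 a) ∧
      Tendsto (fun ε => hs sys ζ Γ Λ ε) (𝓝[>] 0) (𝓝 b) ∧ a < b := by
  refine ⟨sys, Icc (-1) 1, {0}, zeta, isCompact_Icc, isCompact_singleton, zeta_isKL,
    sys_stabilizable, fun ε hε => ⟨by rw [hps_eq hε]; rfl, by rw [hs_eq hε]; rfl⟩,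
    ((1 : ℝ) : EReal), ((2 : ℝ) : EReal), ?_, ?_, ?_⟩
  · refine tendsto_const_nhds.congr' ?_
    filter_upwards [self_mem_nhdsWithin] with ε hε using (hps_eq hε).symm
  · refine tendsto_const_nhds.congr' ?_
    filter_upwards [self_mem_nhdsWithin] with ε hε using (hs_eq hε).symm
  · exact EReal.coe_lt_coe_iff.2 (by norm_num)

end Pool.Agent.Results.MP_395e41_an.StrictInequality
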